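import Pool.Agent.CN.DDBuild

/-!
# Homotopies between chain maps into a resolution (without signs)
-/

universe u

namespace Pool.Agent.Helper23.CD

open Finset IsLocalRing Pool.Agent.CN Pool.Agent.Helper19

variable {R : Type u} [CommRing R]

/-- A matrix `z` of degree `j ≥ 0` from a complex `A` of free modules in degrees `≥ 0` into a
resolution, with `m z = c z m` and inducing zero on `H₀` if `j = 0`, is a boundary. -/
theorem htpy {N : Type u} [AddCommGroup N] [Module R N] {s : ℕ} (F : FRes R N s) (A : BC R)
    (hA : ∀ a, 0 ≤ A.g a) (j : ℤ) (hj : 0 ≤ j) (c : R)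
    (z : F.ν.ι → A.ι → R) (hz : ∀ n a, z n a ≠ 0 → F.ν.g n = A.g a + j)
    (hcomm : ∀ n a, ∑ n', F.ν.m n n' * z n' a = c * ∑ b, z n b * A.m b a)
    (hε : j = 0 → ∀ a, A.g a = 0 → ∑ n, z n a • F.ε n = 0) :
    ∃ w : F.ν.ι → A.ι → R, (∀ n a, w n a ≠ 0 → F.ν.g n = A.g a + j + 1) ∧
      ∀ n a, z n a = ∑ n', F.ν.m n n' * w n' a + c * ∑ b, w n b * A.m b a := by
  classical
  have key : ∀ i : ℕ, ∃ w : F.ν.ι → A.ι → R,
      (∀ n a, w n a ≠ 0 → F.ν.g n = A.g a + j + 1) ∧ (∀ n a, (i : ℤ) ≤ A.g a → w n a = 0) ∧
      ∀ a, A.g a < i → ∀ n, z n a = ∑ n', F.ν.m n n' * w n' a + c * ∑ b, w n b * A.m b a := by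
    intro i
    induction i with
    | zero =>
      refine ⟨fun _ _ => 0, fun n a h => absurd rfl h, fun _ _ _ => rfl, fun a ha => ?_⟩
      have := hA a
      push_cast at ha
      omega
    | succ i ih =>
      obtain ⟨w, hw1, hw2, hw3⟩ := ih
      have hcol : ∀ a, A.g a = i → ∃ u : F.ν.ι → R,
          (∀ n, F.ν.g n ≠ i + j + 1 → u n = 0) ∧
          ∀ n, ∑ n', F.ν.m n n' * u n' = z n a - c * ∑ b, w n b * A.m b a := by
        intro a ha
        have hy1 : ∀ n, F.ν.g n ≠ i + j → z n a - c * ∑ b, w n b * A.m b a = 0 := by
          intro n hn
          have h1 : z n a = 0 := by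
            by_contra h
            exact hn (by rw [hz n a h, ha])
          have h2 : ∑ b, w n b * A.m b a = 0 := by
            refine sum_eq_zero fun b _ => ?_
            by_cases hb : A.m b a = 0
            · rw [hb, mul_zero]
            · have h3 := A.deg b a hb
              have h4 : w n b = 0 := by
                by_contra h
                have := hw1 n b h
                omega
              rw [h4, zero_mul]
          rw [h1, h2, mul_zero, sub_zero]
        have hy2 : ∀ n, ∑ n', F.ν.m n n' * (z n' a - c * ∑ b, w n' b * A.m b a) = 0 := by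
          intro n
          have e1 : ∑ n', F.ν.m n n' * (z n' a - c * ∑ b, w n' b * A.m b a) =
              ∑ n', F.ν.m n n' * z n' a - c * ∑ b, (∑ n', F.ν.m n n' * w n' b) * A.m b a := by
            simp only [mul_sub, sum_sub_distrib, mul_sum, sum_mul]
            congr 1
            rw [sum_comm]
            exact sum_congr rfl fun b _ => sum_congr rfl fun n' _ => by ring
          rw [e1, hcomm, ← mul_sub, ← sum_sub_distrib]
          have e2 : ∀ b, z n b * A.m b a - (∑ n', F.ν.m n n' * w n' b) * A.m b a =
              c * ∑ e, w n e * (A.m e b * A.m b a) := by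
            intro b
            by_cases hb : A.m b a = 0
            · rw [hb]; simp
            · have h3 := A.deg b a hb
              rw [hw3 b (by omega) n, add_mul, add_sub_cancel_left, mul_assoc, sum_mul]
              congr 1
              exact sum_congr rfl fun e _ => by ring
          simp only [e2]
          rw [← mul_sum, sum_comm]
          have e3 : ∀ e, ∑ b, w n e * (A.m e b * A.m b a) = 0 := fun e => by
            rw [← mul_sum, A.sq, mul_zero]
          simp only [e3, sum_const_zero, mul_zero]
        by_cases hij : (i : ℤ) + j = 0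
        · have hi0 : (i : ℤ) = 0 := by omega
          have hj0 : j = 0 := by omega
          have h2 : ∀ n, ∑ b, w n b * A.m b a = 0 := by
            intro n
            refine sum_eq_zero fun b _ => ?_
            by_cases hb : A.m b a = 0
            · rw [hb, mul_zero]
            · have h3 := A.deg b a hb
              have h4 := hA b
              omega
          obtain ⟨u, hu1, hu2⟩ := F.qi.ex0 (fun n => z n a - c * ∑ b, w n b * A.m b a)
            (fun n hn => hy1 n (by omega)) (by
              simp only [h2, mul_zero, sub_zero, LinearMap.toSpanSingleton_apply]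
              exact hε hj0 a (by omega))
          exact ⟨u, fun n hn => hu1 n (by omega), fun n => congrFun hu2 n⟩
        · obtain ⟨u, hu1, hu2⟩ := F.qi.ex (i + j) (by omega)
            (fun n => z n a - c * ∑ b, w n b * A.m b a) hy1 (funext hy2)
          exact ⟨u, hu1, fun n => congrFun hu2 n⟩
      choose! u hu1 hu2 using hcol
      refine ⟨fun n a => if A.g a = i then u a n else w n a, ?_, ?_, ?_⟩
      · intro n a h
        by_cases ha : A.g a = i
        · simp only [if_pos ha] at h
          by_contra hn
          exact h (hu1 a ha n (by omega))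
        · simp only [if_neg ha] at h
          exact hw1 n a h
      · intro n a ha
        push_cast at ha
        simp only [if_neg (show ¬ A.g a = i by omega)]
        exact hw2 n a (by omega)
      · intro a ha n
        push_cast at ha
        have e1 : ∑ b, (if A.g b = i then u b n else w n b) * A.m b a =
            ∑ b, w n b * A.m b a := by
          refine sum_congr rfl fun b _ => ?_
          by_cases hb : A.m b a = 0
          · rw [hb, mul_zero, mul_zero]
          · have h3 := A.deg b a hb
            rw [if_neg (by omega)]
        rw [e1]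
        by_cases hai : A.g a = i
        · simp only [if_pos hai]
          rw [hu2 a hai]
          ring
        · simp only [if_neg hai]
          exact hw3 a (by omega) n
  obtain ⟨M, hM⟩ : ∃ M : ℕ, ∀ a, A.g a < M := by
    obtain ⟨M, hM⟩ := (Set.finite_range A.g).bddAbove
    refine ⟨(M + 1).toNat, fun a => ?_⟩
    have h1 := hM ⟨a, rfl⟩
    have h2 := Int.self_le_toNat (M + 1)
    omega
  obtain ⟨w, hw1, -, hw3⟩ := key M
  exact ⟨w, hw1, fun n a => hw3 a (hM a) n⟩

/-- comparison of resolutions, without signs -/
theorem exists_chain {N P : Type u} [AddCommGroup N] [Module R N] [AddCommGroup P] [Module R P]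
    {s t : ℕ} (F : FRes R N s) (G : FRes R P t) (h : P →ₗ[R] N) :
    ∃ z : F.ν.ι → G.ν.ι → R, (∀ n a, z n a ≠ 0 → F.ν.g n = G.ν.g a) ∧
      (∀ n a, ∑ n', F.ν.m n n' * z n' a = ∑ b, z n b * G.ν.m b a) ∧
      ∀ a, ∑ n, z n a • F.ε n = h (G.ε a) := by
  classical
  have key : ∀ i : ℕ, ∃ z : F.ν.ι → G.ν.ι → R,
      (∀ n a, z n a ≠ 0 → F.ν.g n = G.ν.g a) ∧
      (∀ a, G.ν.g a < i → (∀ n, ∑ n', F.ν.m n n' * z n' a = ∑ b, z n b * G.ν.m b a) ∧
        ∑ n, z n a • F.ε n = h (G.ε a)) := by
    intro i
    induction i with
    | zero =>
      refine ⟨fun _ _ => 0, fun n a h => absurd rfl h, fun a ha => ?_⟩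
      have := G.g0 a
      push_cast at ha
      omega
    | succ i ih =>
      obtain ⟨z, hz1, hz2⟩ := ih
      have hcol : ∀ a, G.ν.g a = i → ∃ u : F.ν.ι → R,
          (∀ n, F.ν.g n ≠ i → u n = 0) ∧
          (∀ n, ∑ n', F.ν.m n n' * u n' = ∑ b, z n b * G.ν.m b a) ∧
          ∑ n, u n • F.ε n = h (G.ε a) := by
        intro a ha
        by_cases hi : i = 0
        · subst hi
          obtain ⟨u, hu1, hu2⟩ := F.qi.surj (h (G.ε a))
          refine ⟨u, fun n hn => hu1 n (by push_cast at hn; exact hn), fun n => ?_, ?_⟩
          · have e1 : ∑ b, z n b * G.ν.m b a = 0 := by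
              refine sum_eq_zero fun b _ => ?_
              by_cases hb : G.ν.m b a = 0
              · rw [hb, mul_zero]
              · have h3 := G.ν.deg b a hb
                have h4 := G.g0 b
                push_cast at ha
                omega
            rw [e1]
            refine sum_eq_zero fun n' _ => ?_
            by_cases hb : F.ν.m n n' = 0
            · rw [hb, zero_mul]
            · have h3 := F.ν.deg n n' hb
              have h4 := F.g0 n
              rw [hu1 n' (by omega), mul_zero]
          · simpa using hu2
        · have hpos : (1 : ℤ) ≤ i := by omega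
          have hy1 : ∀ n, F.ν.g n ≠ i - 1 → ∑ b, z n b * G.ν.m b a = 0 := by
            intro n hn
            refine sum_eq_zero fun b _ => ?_
            by_cases hb : G.ν.m b a = 0
            · rw [hb, mul_zero]
            · have h3 := G.ν.deg b a hb
              have h4 : z n b = 0 := by
                by_contra h
                have := hz1 n b h
                omega
              rw [h4, zero_mul]
          have hy2 : ∀ n, ∑ n', F.ν.m n n' * ∑ b, z n' b * G.ν.m b a = 0 := by
            intro n
            have e1 : ∑ n', F.ν.m n n' * ∑ b, z n' b * G.ν.m b a =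
                ∑ b, (∑ n', F.ν.m n n' * z n' b) * G.ν.m b a := by
              simp only [mul_sum, sum_mul]
              rw [sum_comm]
              exact sum_congr rfl fun b _ => sum_congr rfl fun n' _ => by ring
            rw [e1]
            have e2 : ∀ b, (∑ n', F.ν.m n n' * z n' b) * G.ν.m b a =
                ∑ e, z n e * (G.ν.m e b * G.ν.m b a) := by
              intro b
              by_cases hb : G.ν.m b a = 0
              · rw [hb]; simp
              · have h3 := G.ν.deg b a hb
                rw [(hz2 b (by omega)).1 n, sum_mul]
                exact sum_congr rfl fun e _ => by ring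
            simp only [e2]
            rw [sum_comm]
            refine sum_eq_zero fun e _ => ?_
            rw [← mul_sum, G.ν.sq, mul_zero]
          have hG : h (G.ε a) = 0 := by
            rw [G.ε0 a (by omega), map_zero]
          have hF : ∀ u : F.ν.ι → R, (∀ n, F.ν.g n ≠ i → u n = 0) →
              ∑ n, u n • F.ε n = 0 := by
            intro u hu
            refine sum_eq_zero fun n _ => ?_
            by_cases hn : F.ν.g n = 0
            · rw [hu n (by omega), zero_smul]
            · rw [F.ε0 n hn, smul_zero]
          by_cases hi1 : i = 1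
          · subst hi1
            obtain ⟨u, hu1, hu2⟩ := F.qi.ex0 (fun n => ∑ b, z n b * G.ν.m b a)
              (fun n hn => hy1 n (by push_cast; omega)) (by
                simp only [LinearMap.toSpanSingleton_apply, sum_smul]
                rw [sum_comm]
                have e3 : ∀ b, ∑ n, (z n b * G.ν.m b a) • F.ε n =
                    G.ν.m b a • h (G.ε b) := by
                  intro b
                  by_cases hb : G.ν.m b a = 0
                  · rw [hb]; simp
                  · have h3 := G.ν.deg b a hb
                    rw [← (hz2 b (by omega)).2, smul_sum]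
                    exact sum_congr rfl fun n _ => by rw [mul_comm, mul_smul]
                simp only [e3]
                have e4 : ∑ b, G.ν.m b a • h (G.ε b) = h (∑ b, G.ν.m b a • G.ε b) := by
                  rw [map_sum]
                  exact sum_congr rfl fun b _ => (map_smul _ _ _).symm
                rw [e4, G.sum_m_ε, map_zero])
            refine ⟨u, fun n hn => hu1 n (by push_cast at hn; exact hn),
              fun n => congrFun hu2 n, ?_⟩
            rw [hG]
            exact hF u (fun n hn => hu1 n (by push_cast at hn; exact hn))
          · obtain ⟨u, hu1, hu2⟩ := F.qi.ex (i - 1) (by omega)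
              (fun n => ∑ b, z n b * G.ν.m b a) hy1 (funext hy2)
            refine ⟨u, fun n hn => hu1 n (by omega), fun n => congrFun hu2 n, ?_⟩
            rw [hG]
            exact hF u (fun n hn => hu1 n (by omega))
      choose! u hu1 hu2 hu3 using hcol
      refine ⟨fun n a => if G.ν.g a = i then u a n else z n a, ?_, ?_⟩
      · intro n a h
        by_cases ha : G.ν.g a = i
        · simp only [if_pos ha] at h
          by_contra hn
          exact h (hu1 a ha n (by omega))
        · simp only [if_neg ha] at h
          exact hz1 n a h
      · intro a ha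
        push_cast at ha
        by_cases hai : G.ν.g a = i
        · simp only [if_pos hai]
          refine ⟨fun n => ?_, hu3 a hai⟩
          rw [hu2 a hai n]
          refine sum_congr rfl fun b _ => ?_
          by_cases hb : G.ν.m b a = 0
          · rw [hb, mul_zero, mul_zero]
          · have h3 := G.ν.deg b a hb
            rw [if_neg (by omega)]
        · simp only [if_neg hai]
          refine ⟨fun n => ?_, (hz2 a (by omega)).2⟩
          rw [(hz2 a (by omega)).1 n]
          refine sum_congr rfl fun b _ => ?_
          by_cases hb : G.ν.m b a = 0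
          · rw [hb, mul_zero, mul_zero]
          · have h3 := G.ν.deg b a hb
            rw [if_neg (by omega)]
  obtain ⟨M, hM⟩ : ∃ M : ℕ, ∀ a, G.ν.g a < M := by
    obtain ⟨M, hM⟩ := (Set.finite_range G.ν.g).bddAbove
    refine ⟨(M + 1).toNat, fun a => ?_⟩
    have h1 := hM ⟨a, rfl⟩
    have h2 := Int.self_le_toNat (M + 1)
    omega
  obtain ⟨z, hz1, hz2⟩ := key M
  exact ⟨z, hz1, fun n a => (hz2 a (hM a)).1 n, fun a => (hz2 a (hM a)).2⟩

end Pool.Agent.Helper23.CD
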