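import Pool.Agent.Helper23.CD.Mat
import Pool.Agent.CN.MinRes

/-!
# Minimal resolutions with signs `(-1)^g`, nonempty top degree, liftable modulo `mI`
-/

universe u

open RingTheory.Sequence
open scoped Pointwise

namespace Pool.Agent.Helper23.CD

open Finset IsLocalRing Pool.Agent.CN Pool.Agent.Helper19

/-- the signs are the standard ones -/
def StdSign {R : Type u} [CommRing R] (ν : BC R) : Prop :=
  ∀ a, ν.σ a = if Even (ν.g a) then 1 else -1

theorem exists_minRes_top {R : Type u} [CommRing R] [IsLocalRing R] [IsNoetherianRing R] (s : ℕ) :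
    ∀ (N : Type u) [AddCommGroup N] [Module R N] [Module.Finite R N], PD R N (s + 1) →
      ¬ PD R N s →
      ∃ F : FRes R N s, (∀ a b, F.ν.m a b ∈ maximalIdeal R) ∧ StdSign F.ν ∧
        ∃ a, F.ν.g a = s := by
  induction s with
  | zero =>
    intro N _ _ _ hN hN0
    have hproj : Module.Projective R N := projective_of_pd_one hN
    have hfree : Module.Free R N := Module.free_of_flat_of_isLocalRing
    let b := Module.finBasis R N
    refine ⟨⟨freeBC R (Module.finrank R N), b, fun _ => le_refl _,
      fun _ => le_refl _, fun _ _ => rfl, fun _ _ => rfl, ?_⟩, ?_, ?_, ?_⟩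
    · refine ⟨fun a h => absurd rfl h, fun y => ⟨b.repr y, fun a h => absurd rfl h, ?_⟩,
        fun _ _ => by simp [freeBC], ?_, ?_⟩
      · simp only [LinearMap.toSpanSingleton_apply]
        exact b.sum_repr y
      · intro z _ hz
        refine ⟨0, fun _ _ => rfl, ?_⟩
        have h1 : z = 0 := by
          funext a
          exact Fintype.linearIndependent_iff.mp b.linearIndependent z
            (by
              have h := hz
              simp only [LinearMap.toSpanSingleton_apply] at h
              exact h) a
        rw [h1, mulV_zero]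
      · intro i hi z hz _
        refine ⟨0, fun _ _ => rfl, ?_⟩
        have h1 : z = 0 := by
          funext a
          exact hz a (by change (0 : ℤ) ≠ i; omega)
        rw [h1, mulV_zero]
    · intro a c
      exact zero_mem _
    · intro a
      change (1 : ℤ) = if Even (0 : ℤ) then 1 else -1
      simp
    · have hne : Module.finrank R N ≠ 0 := by
        intro h0
        apply hN0
        have hsub : Subsingleton N := by
          refine ⟨fun x y => b.ext_elem fun i => ?_⟩
          rw [h0] at i
          exact i.elim0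
        exact (CategoryTheory.hasProjectiveDimensionLT_zero_iff_isZero (ModuleCat.of R N)).mpr
          (ModuleCat.isZero_iff_subsingleton.mpr hsub)
      exact ⟨⟨0, Nat.pos_of_ne_zero hne⟩, rfl⟩
  | succ s ih =>
    intro N _ _ _ hN hN0
    obtain ⟨n, π, hπ, hmin⟩ := exists_minimal_cover (A := R) (X := N)
    have hK : PD R (LinearMap.ker π) (s + 1) :=
      pd_ker (f := (LinearMap.ker π).subtype) (g := π) Subtype.val_injective hπ
        (fun v => by simp) hN
    have hK0 : ¬ PD R (LinearMap.ker π) s := by
      intro h
      apply hN0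
      exact pd_coker (f := (LinearMap.ker π).subtype) (g := π) Subtype.val_injective hπ
        (fun v => by simp) h (PD.mono pd_of_free (by omega))
    obtain ⟨F, hF, hσ, a, ha⟩ := ih (LinearMap.ker π) hK hK0
    refine ⟨stepRes π hπ F, ?_, ?_, Sum.inr a, ?_⟩
    · rintro (i | a) (j | b)
      · exact zero_mem _
      · exact hmin _ (F.ε b).2 i
      · exact zero_mem _
      · exact hF a b
    · rintro (i | b)
      · change (1 : ℤ) = if Even (0 : ℤ) then 1 else -1
        simp
      · change - F.ν.σ b = if Even (F.ν.g b + 1) then 1 else -1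
        rw [hσ b]
        by_cases h : Even (F.ν.g b)
        · rw [if_pos h, if_neg (by rw [Int.even_add_one]; exact fun h' => h' h)]
        · rw [if_neg h, if_pos (by rw [Int.even_add_one]; exact h)]
          simp
    · change F.ν.g a + 1 = ((s + 1 : ℕ) : ℤ)
      rw [ha]
      push_cast
      ring

/-- Modules with a minimal resolution of length exactly `s` whose differential lifts to `S`
modulo `mI`. -/
def LRes {S : Type u} [CommRing S] [IsLocalRing S] (I : Ideal S) [IsLocalRing (S ⧸ I)]
    (N : Type u) [AddCommGroup N] [Module (S ⧸ I) N] (s : ℕ) : Prop :=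
  PD (S ⧸ I) N (s + 1) ∧ ∃ F : FRes (S ⧸ I) N s, StdSign F.ν ∧ (∃ a, F.ν.g a = s) ∧
    ∃ mt : F.ν.ι → F.ν.ι → S, (∀ a b, Ideal.Quotient.mk I (mt a b) = F.ν.m a b) ∧
      (∀ a b, mt a b ∈ maximalIdeal S) ∧ ∀ a c, ∑ b, mt a b * mt b c ∈ maximalIdeal S * I

section

variable {S : Type u} [CommRing S] [IsLocalRing S] {I : Ideal S} [IsLocalRing (S ⧸ I)]

lemma mem_max_of_mk {r : S} (h : Ideal.Quotient.mk I r ∈ maximalIdeal (S ⧸ I)) :
    r ∈ maximalIdeal S := by
  rw [mem_maximalIdeal, mem_nonunits_iff] at h ⊢
  exact fun hu => h (hu.map _)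

/-- a set-theoretic section of `S → S/I` with `0 ↦ 0` -/
lemma exists_section (I : Ideal S) : ∃ l : S ⧸ I → S, l 0 = 0 ∧
    ∀ r, Ideal.Quotient.mk I (l r) = r := by
  classical
  choose l hl using fun r : S ⧸ I => Ideal.Quotient.mk_surjective r
  refine ⟨fun r => if r = 0 then 0 else l r, by simp, fun r => ?_⟩
  by_cases h : r = 0
  · simp [h]
  · simp only [if_neg h]; exact hl r

lemma LRes.congr {N N' : Type u} [AddCommGroup N] [Module (S ⧸ I) N] [AddCommGroup N']
    [Module (S ⧸ I) N'] (e : N ≃ₗ[S ⧸ I] N') {s : ℕ} (h : LRes I N s) : LRes I N' s := by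
  obtain ⟨h0, F, h1, h2, h3⟩ := h
  refine ⟨PD.congr e h0, ⟨F.ν, fun a => e (F.ε a), F.g0, F.gs, F.σ0, F.σs, ?_⟩, h1, h2, h3⟩
  have hsum : ∀ z : F.ν.ι → S ⧸ I,
      ∑ a, (LinearMap.toSpanSingleton (S ⧸ I) N' (e (F.ε a))) (z a) =
        e (∑ a, (LinearMap.toSpanSingleton (S ⧸ I) N (F.ε a)) (z a)) := by
    intro z
    simp only [LinearMap.toSpanSingleton_apply, map_sum, map_smul]
  refine ⟨fun a ha => ?_, fun y => ?_, fun b v => ?_, fun z hz h0 => ?_, F.qi.ex⟩
  · have := F.ε0 a ha
    rw [this, map_zero]
    exact LinearMap.toSpanSingleton_zero _ _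
  · obtain ⟨z, hz1, hz2⟩ := F.qi.surj (e.symm y)
    refine ⟨z, hz1, ?_⟩
    rw [hsum, hz2, LinearEquiv.apply_symm_apply]
  · have h4 := F.qi.Em b v
    have h5 := congrArg e h4
    simp only [LinearMap.toSpanSingleton_apply, map_sum, map_smul, map_zero] at h5 ⊢
    exact h5
  · rw [hsum] at h0
    exact F.qi.ex0 z hz (e.injective (by rw [h0, map_zero]))

/-- modules of projective dimension at most one -/
lemma lres_of_pd [IsNoetherianRing (S ⧸ I)] {N : Type u} [AddCommGroup N] [Module (S ⧸ I) N]
    [Module.Finite (S ⧸ I) N] [Nontrivial N] (h : PD (S ⧸ I) N 2) : ∃ s, LRes I N s := by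
  have h0 : ¬ PD (S ⧸ I) N 0 := fun h => by
    have := subsingleton_of_pd_zero h
    exact not_subsingleton N this
  obtain ⟨s, hs, hs1, hs2⟩ : ∃ s, s ≤ 1 ∧ PD (S ⧸ I) N (s + 1) ∧ ¬ PD (S ⧸ I) N s := by
    by_cases h1 : PD (S ⧸ I) N 1
    · exact ⟨0, by omega, h1, h0⟩
    · exact ⟨1, le_refl _, h, h1⟩
  obtain ⟨F, hm, hσ, htop⟩ := exists_minRes_top s N hs1 hs2
  obtain ⟨l, hl0, hl⟩ := exists_section I
  refine ⟨s, hs1, F, hσ, htop, fun a b => l (F.ν.m a b), fun a b => hl _, fun a b => ?_, fun a c => ?_⟩
  · exact mem_max_of_mk (I := I) (by rw [hl]; exact hm a b)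
  · refine Ideal.sum_mem _ fun b _ => ?_
    beta_reduce
    by_cases h1 : F.ν.m a b = 0
    · rw [h1, hl0, zero_mul]; exact Ideal.zero_mem _
    · by_cases h2 : F.ν.m b c = 0
      · rw [h2, hl0, mul_zero]; exact Ideal.zero_mem _
      · have e1 := F.ν.deg a b h1
        have e2 := F.ν.deg b c h2
        have e3 := F.g0 a
        have e4 := F.gs c
        omega

/-- the mapping cone of multiplication by `x` -/
def coneBC {R : Type u} [CommRing R] (ν : BC R) (x : R) : BC R where
  ι := ν.ι ⊕ ν.ι
  fin := inferInstance
  dec := inferInstance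
  g := Sum.elim ν.g (fun b => ν.g b + 1)
  σ := Sum.elim ν.σ (fun b => - ν.σ b)
  m a b := match a, b with
    | Sum.inl a, Sum.inl b => ν.m a b
    | Sum.inl a, Sum.inr b => if a = b then x else 0
    | Sum.inr _, Sum.inl _ => 0
    | Sum.inr a, Sum.inr b => - ν.m a b
  pm a := by
    rcases a with a | a
    · exact ν.pm a
    · rcases ν.pm a with h | h
      · right; simp [h]
      · left; simp [h]
  deg := by
    rintro (a | a) (b | b) h
    · exact ν.deg a b h
    · have h1 : a = b := by
        by_contra h2
        exact h (if_neg h2)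
      subst h1
      rfl
    · exact absurd rfl h
    · have h1 : ν.m a b ≠ 0 := fun h2 => h (by simp [h2])
      simp only [Sum.elim_inr]
      rw [ν.deg a b h1]
  sgn := by
    rintro (a | a) (b | b) h
    · exact ν.sgn a b h
    · have h1 : a = b := by
        by_contra h2
        exact h (if_neg h2)
      subst h1
      rfl
    · exact absurd rfl h
    · have h1 : ν.m a b ≠ 0 := fun h2 => h (by simp [h2])
      simp only [Sum.elim_inr]
      rw [ν.sgn a b h1]
  sq := by
    rintro (a | a) (b | b)
    · rw [Fintype.sum_sum_type]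
      simp [ν.sq]
    · rw [Fintype.sum_sum_type]
      simp
      ring
    · rw [Fintype.sum_sum_type]
      simp
    · rw [Fintype.sum_sum_type]
      simp [ν.sq]

lemma sum_cone {R : Type u} [CommRing R] (ν : BC R) (x : R) {M : Type*} [AddCommMonoid M]
    (f : (coneBC ν x).ι → M) :
    ∑ a, f a = ∑ a : ν.ι, f (Sum.inl a) + ∑ b : ν.ι, f (Sum.inr b) :=
  Fintype.sum_sum_type (α₁ := ν.ι) (α₂ := ν.ι) f

/-- the cone resolves `N / x N` -/
def coneRes {R : Type u} [CommRing R] {N : Type u} [AddCommGroup N] [Module R N] {s : ℕ}
    (F : FRes R N s) (x : R) (hx : IsSMulRegular N x) :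
    FRes R (QuotSMulTop x N) (s + 1) where
  ν := coneBC F.ν x
  ε := Sum.elim (fun a => Submodule.Quotient.mk (F.ε a)) (fun _ => 0)
  g0 := by
    rintro (a | a)
    · exact F.g0 a
    · have := F.g0 a
      change 0 ≤ F.ν.g a + 1
      omega
  gs := by
    rintro (a | a)
    · have := F.gs a
      change F.ν.g a ≤ ((s + 1 : ℕ) : ℤ)
      push_cast
      omega
    · have := F.gs a
      change F.ν.g a + 1 ≤ ((s + 1 : ℕ) : ℤ)
      push_cast
      omega
  σ0 := by
    rintro (a | a) h
    · exact F.σ0 a h
    · have := F.g0 a
      change F.ν.g a + 1 = 0 at h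
      omega
  σs := by
    rintro (a | a) h
    · have := F.gs a
      change F.ν.g a = ((s + 1 : ℕ) : ℤ) at h
      push_cast at h
      omega
    · change F.ν.g a + 1 = ((s + 1 : ℕ) : ℤ) at h
      change - F.ν.σ a = _
      push_cast at h
      rw [F.σs a (by omega), pow_succ]
      ring
  qi :=
    { E0 := by
        rintro (a | a) h
        · change LinearMap.toSpanSingleton R _ (Submodule.Quotient.mk (F.ε a)) = 0
          rw [F.ε0 a h]
          exact LinearMap.toSpanSingleton_zero R _
        · exact LinearMap.toSpanSingleton_zero R _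
      surj := by
        intro y
        obtain ⟨y, rfl⟩ := Submodule.Quotient.mk_surjective _ y
        obtain ⟨z, hz1, hz2⟩ := F.qi.surj y
        refine ⟨Sum.elim z 0, ?_, ?_⟩
        · rintro (a | a) h
          · exact hz1 a h
          · rfl
        · rw [sum_cone]
          simp only [Sum.elim_inl, Sum.elim_inr, LinearMap.toSpanSingleton_apply, smul_zero,
            sum_const_zero, add_zero]
          rw [← hz2]
          simp only [LinearMap.toSpanSingleton_apply]
          rw [← Submodule.mkQ_apply, map_sum]
          exact sum_congr rfl fun a _ => by rw [map_smul]; rfl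
      Em := by
        rintro (b | b) v
        · rw [sum_cone]
          simp only [Sum.elim_inl, Sum.elim_inr, LinearMap.toSpanSingleton_apply, smul_zero,
            sum_const_zero, add_zero]
          have h1 := F.qi.Em b v
          simp only [LinearMap.toSpanSingleton_apply] at h1
          have h2 := congrArg (Submodule.mkQ (x • (⊤ : Submodule R N))) h1
          rw [map_sum, map_zero] at h2
          rw [← h2]
          exact sum_congr rfl fun a _ => by rw [map_smul, map_smul]; rfl
        · rw [sum_cone]
          simp only [Sum.elim_inl, Sum.elim_inr, LinearMap.toSpanSingleton_apply, smul_zero,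
            sum_const_zero, add_zero]
          have h1 : ∀ a, (coneBC F.ν x).m (Sum.inl a) (Sum.inr b) • v •
              (Submodule.Quotient.mk (F.ε a) : QuotSMulTop x N) = if a = b then
                x • v • (Submodule.Quotient.mk (F.ε b) : QuotSMulTop x N) else 0 := by
            intro a
            by_cases h : a = b
            · subst h
              simp [coneBC]
            · simp [coneBC, h]
          simp only [h1]
          rw [sum_ite_eq', if_pos (mem_univ _), ← Submodule.Quotient.mk_smul,
            ← Submodule.Quotient.mk_smul, Submodule.Quotient.mk_eq_zero]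
          exact Submodule.smul_mem_pointwise_smul _ _ _ trivial
      ex0 := by
        intro z hz hs
        rw [sum_cone] at hs
        simp only [Sum.elim_inl, Sum.elim_inr, LinearMap.toSpanSingleton_apply, smul_zero,
            sum_const_zero, add_zero] at hs
        have hs1 : (Submodule.Quotient.mk (∑ a, z (Sum.inl a) • F.ε a) : QuotSMulTop x N) = 0 := by
          rw [← hs, ← Submodule.mkQ_apply, map_sum]
          exact sum_congr rfl fun a _ => by rw [map_smul]; rfl
        rw [Submodule.Quotient.mk_eq_zero] at hs1
        obtain ⟨y, -, hy⟩ := hs1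
        obtain ⟨w, hw1, hw2⟩ := F.qi.surj y
        simp only [LinearMap.toSpanSingleton_apply] at hw2
        obtain ⟨u, hu1, hu2⟩ := F.qi.ex0 (fun a => z (Sum.inl a) - x * w a) (fun a ha => by
            simp only [hz (Sum.inl a) ha, hw1 a ha]; simp) (by
          simp only [LinearMap.toSpanSingleton_apply, sub_smul, sum_sub_distrib, mul_smul]
          rw [← smul_sum, hw2, sub_eq_zero]
          exact hy.symm)
        refine ⟨Sum.elim u w, ?_, ?_⟩
        · rintro (a | a) h
          · exact hu1 a h
          · exact hw1 a (fun h0 => h (by change F.ν.g a + 1 = 1; rw [h0]; rfl))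
        · funext a
          change ∑ y : (coneBC F.ν x).ι, (coneBC F.ν x).m a y • (Sum.elim u w : F.ν.ι ⊕ F.ν.ι → R) y = _
          rw [sum_cone]
          rcases a with a | a
          · have h1 := congrFun hu2 a
            simp only [mulV, smul_eq_mul] at h1
            simp only [coneBC, Sum.elim_inl, Sum.elim_inr, smul_eq_mul, ite_mul, zero_mul,
              sum_ite_eq, mem_univ, if_true]
            rw [h1]
            ring
          · rw [hz (Sum.inr a) (by
              have := F.g0 a
              change F.ν.g a + 1 ≠ 0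
              omega)]
            simp only [coneBC, Sum.elim_inl, Sum.elim_inr, smul_eq_mul, zero_mul,
              sum_const_zero, zero_add]
            refine sum_eq_zero fun b _ => ?_
            by_cases hb : F.ν.m a b = 0
            · rw [hb, neg_zero, zero_mul]
            · rw [hw1 b (by
                have := F.ν.deg a b hb
                have := F.g0 a
                omega), mul_zero]
      ex := by
        intro i hi z hz hm
        have hzl : ∀ a, F.ν.g a ≠ i → z (Sum.inl a) = 0 := fun a ha => hz (Sum.inl a) ha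
        have hzr : ∀ b, F.ν.g b ≠ i - 1 → z (Sum.inr b) = 0 := fun b hb => hz (Sum.inr b) (by
          change F.ν.g b + 1 ≠ i; omega)
        have hml : ∀ a, ∑ b, F.ν.m a b * z (Sum.inl b) + x * z (Sum.inr a) = 0 := by
          intro a
          have h := congrFun hm (Sum.inl a)
          change ∑ y : (coneBC F.ν x).ι, (coneBC F.ν x).m (Sum.inl a) y • z y = 0 at h
          rw [sum_cone] at h
          simp only [coneBC, smul_eq_mul, ite_mul, zero_mul,
              sum_ite_eq, mem_univ, if_true] at h
          exact h
        have hmr : mulV F.ν.m (fun b => z (Sum.inr b)) = 0 := by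
          funext a
          have h := congrFun hm (Sum.inr a)
          change ∑ y : (coneBC F.ν x).ι, (coneBC F.ν x).m (Sum.inr a) y • z y = 0 at h
          rw [sum_cone] at h
          simp only [coneBC, smul_eq_mul, zero_mul, sum_const_zero, zero_add, neg_mul,
            sum_neg_distrib, neg_eq_zero] at h
          exact h
        obtain ⟨w, hw1, hw2⟩ : ∃ w : F.ν.ι → R, (∀ a, F.ν.g a ≠ i → w a = 0) ∧
            mulV F.ν.m w = fun b => z (Sum.inr b) := by
          by_cases h1 : i = 1
          · subst h1
            obtain ⟨w, hw1, hw2⟩ := F.qi.ex0 (fun b => z (Sum.inr b))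
              (fun b hb => hzr b (by simpa using hb)) (by
                simp only [LinearMap.toSpanSingleton_apply]
                apply hx.right_eq_zero_of_smul
                rw [smul_sum]
                have h2 : ∀ a, x • z (Sum.inr a) • F.ε a =
                    - ∑ b, (F.ν.m a b * z (Sum.inl b)) • F.ε a := by
                  intro a
                  rw [smul_smul, eq_neg_of_add_eq_zero_right (hml a), neg_smul, sum_smul]
                simp only [h2, sum_neg_distrib]
                rw [sum_comm, neg_eq_zero]
                refine sum_eq_zero fun b _ => ?_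
                have h3 := F.sum_m_ε b
                have h4 : ∀ a, (F.ν.m a b * z (Sum.inl b)) • F.ε a =
                    z (Sum.inl b) • F.ν.m a b • F.ε a := fun a => by
                  rw [mul_comm, mul_smul]
                simp only [h4]
                rw [← smul_sum, h3, smul_zero])
            exact ⟨w, hw1, hw2⟩
          · obtain ⟨w, hw1, hw2⟩ := F.qi.ex (i - 1) (by omega) (fun b => z (Sum.inr b))
              (fun b hb => hzr b hb) hmr
            exact ⟨w, fun a ha => hw1 a (by omega), hw2⟩
        have hw3 : ∀ a, ∑ b, F.ν.m a b * w b = z (Sum.inr a) := fun a => congrFun hw2 a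
        obtain ⟨u, hu1, hu2⟩ := F.qi.ex i hi (fun a => z (Sum.inl a) + x * w a) (fun a ha => by
            simp only [hzl a ha, hw1 a ha]; simp) (by
          funext a
          change ∑ b, F.ν.m a b * (z (Sum.inl b) + x * w b) = 0
          rw [← hml a, ← hw3 a, mul_sum, ← sum_add_distrib]
          exact sum_congr rfl fun b _ => by ring)
        refine ⟨Sum.elim u (fun a => - w a), ?_, ?_⟩
        · rintro (a | a) h
          · exact hu1 a h
          · have h1 : w a = 0 := hw1 a (fun h0 => h (by
              change F.ν.g a + 1 = i + 1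
              rw [h0]))
            change - w a = 0
            rw [h1, neg_zero]
        · funext a
          change ∑ y : (coneBC F.ν x).ι, (coneBC F.ν x).m a y •
            (Sum.elim u (fun a => - w a) : F.ν.ι ⊕ F.ν.ι → R) y = _
          rw [sum_cone]
          rcases a with a | a
          · have h1 := congrFun hu2 a
            simp only [mulV, smul_eq_mul] at h1
            simp only [coneBC, Sum.elim_inl, Sum.elim_inr, smul_eq_mul, ite_mul, zero_mul,
              sum_ite_eq, mem_univ, if_true]
            rw [h1]
            ring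
          · simp only [coneBC, Sum.elim_inl, Sum.elim_inr, smul_eq_mul, zero_mul,
              sum_const_zero, zero_add, neg_mul_neg]
            exact hw3 a }

/-- quotients by regular elements -/
lemma LRes.cone {N : Type u} [AddCommGroup N] [Module (S ⧸ I) N] {s : ℕ} (h : LRes I N s)
    (x : S ⧸ I) (hxm : x ∈ maximalIdeal (S ⧸ I)) (hx : IsSMulRegular N x) :
    LRes I (QuotSMulTop x N) (s + 1) := by
  obtain ⟨hN, F, hσ, ⟨a, ha⟩, mt, h1, h2, h3⟩ := h
  have hQ : PD (S ⧸ I) (QuotSMulTop x N) (s + 1 + 1) :=
    pd_coker (f := LinearMap.lsmul (S ⧸ I) N x) (g := (x • (⊤ : Submodule (S ⧸ I) N)).mkQ)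
      hx (Submodule.mkQ_surjective _) (by
        intro v
        rw [Submodule.mkQ_apply, Submodule.Quotient.mk_eq_zero]
        constructor
        · rintro ⟨w, -, hw⟩
          exact ⟨w, hw⟩
        · rintro ⟨w, rfl⟩
          exact Submodule.smul_mem_pointwise_smul _ _ _ trivial) hN (PD.mono hN (by omega))
  obtain ⟨y, rfl⟩ := Ideal.Quotient.mk_surjective x
  have hy := mem_max_of_mk (I := I) hxm
  refine ⟨hQ, coneRes F _ hx, ?_, ⟨Sum.inr a, ?_⟩, fun a b => match a, b with
    | Sum.inl a, Sum.inl b => mt a b
    | Sum.inl a, Sum.inr b => if a = b then y else 0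
    | Sum.inr _, Sum.inl _ => 0
    | Sum.inr a, Sum.inr b => - mt a b, ?_, ?_, ?_⟩
  · rintro (a | b)
    · exact hσ a
    · change - F.ν.σ b = if Even (F.ν.g b + 1) then 1 else -1
      rw [hσ b]
      by_cases h : Even (F.ν.g b)
      · rw [if_pos h, if_neg (by rw [Int.even_add_one]; exact fun h' => h' h)]
      · rw [if_neg h, if_pos (by rw [Int.even_add_one]; exact h)]
        simp
  · change F.ν.g a + 1 = ((s + 1 : ℕ) : ℤ)
    rw [ha]
    push_cast
    ring
  · rintro (a | a) (b | b)
    · exact h1 a b
    · change Ideal.Quotient.mk I (if a = b then y else 0) =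
        if a = b then Ideal.Quotient.mk I y else 0
      by_cases h : a = b <;> simp [h]
    · exact map_zero _
    · change Ideal.Quotient.mk I (- mt a b) = - F.ν.m a b
      rw [map_neg, h1]
  · rintro (a | a) (b | b)
    · exact h2 a b
    · change (if a = b then y else 0) ∈ _
      by_cases h : a = b
      · rw [if_pos h]; exact hy
      · rw [if_neg h]; exact Ideal.zero_mem _
    · exact Ideal.zero_mem _
    · exact neg_mem (h2 a b)
  · rintro (a | a) (c | c)
    · refine (congrArg (· ∈ maximalIdeal S * I) (sum_cone F.ν (Ideal.Quotient.mk I y) _)).mpr ?_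
      simpa using h3 a c
    · refine (congrArg (· ∈ maximalIdeal S * I) (sum_cone F.ν (Ideal.Quotient.mk I y) _)).mpr ?_
      have : ∑ b, mt a b * (if b = c then y else 0) +
          ∑ b, (if a = b then y else 0) * - mt b c = 0 := by
        simp
        ring
      rw [this]
      exact Ideal.zero_mem _
    · refine (congrArg (· ∈ maximalIdeal S * I) (sum_cone F.ν (Ideal.Quotient.mk I y) _)).mpr ?_
      simp
    · refine (congrArg (· ∈ maximalIdeal S * I) (sum_cone F.ν (Ideal.Quotient.mk I y) _)).mpr ?_
      simpa using h3 a c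

/-- `N₀ / (xs) N₀` with `pd N₀ ≤ 1` and `xs` an `N₀`-regular sequence -/
theorem lres_of_list (xs : List (S ⧸ I)) : ∀ (N : Type u) [AddCommGroup N] [Module (S ⧸ I) N]
    (s : ℕ), LRes I N s → IsRegular N xs → (∀ x ∈ xs, x ∈ maximalIdeal (S ⧸ I)) →
    ∃ t, LRes I (N ⧸ (Ideal.ofList xs • ⊤ : Submodule (S ⧸ I) N)) t := by
  induction xs with
  | nil =>
    intro N _ _ s h _ _
    refine ⟨s, LRes.congr (Submodule.quotEquivOfEqBot _ ?_).symm h⟩
    simp
  | cons x xs ih =>
    intro N _ _ s h hreg hm
    rw [isRegular_cons_iff] at hreg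
    obtain ⟨t, ht⟩ := ih (QuotSMulTop x N) (s + 1)
      (h.cone x (hm x List.mem_cons_self) hreg.1) hreg.2
      (fun y hy => hm y (List.mem_cons_of_mem _ hy))
    exact ⟨t, LRes.congr (Submodule.quotOfListConsSMulTopEquivQuotSMulTopInner N x xs).symm ht⟩

end

end Pool.Agent.Helper23.CD
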