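import Pool.Agent.Helper23.CD.LRes

/-!
# Undetected elements are multiplied into `mI` by derivations
-/

universe u

namespace Pool.Agent.Helper23.CD

open Finset IsLocalRing Pool.Agent.CN Pool.Agent.Helper19

/-- the sign function turning chain lifts into chain maps -/
def eg (i : ℤ) : ℤ := if i % 4 = 0 ∨ i % 4 = 3 then 1 else -1

lemma eg_succ (i : ℤ) : eg (i + 1) = - (if Even i then 1 else -1) * eg i := by
  unfold eg
  rcases (by omega : i % 4 = 0 ∨ i % 4 = 1 ∨ i % 4 = 2 ∨ i % 4 = 3) with h | h | h | h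
  · have h1 : Even i := by rw [Int.even_iff]; omega
    have h2 : (i + 1) % 4 = 1 := by omega
    simp [h, h1, h2]
  · have h1 : ¬ Even i := by rw [Int.even_iff]; omega
    have h2 : (i + 1) % 4 = 2 := by omega
    simp [h, h1, h2]
  · have h1 : Even i := by rw [Int.even_iff]; omega
    have h2 : (i + 1) % 4 = 3 := by omega
    simp [h, h1, h2]
  · have h1 : ¬ Even i := by rw [Int.even_iff]; omega
    have h2 : (i + 1) % 4 = 0 := by omega
    simp [h, h1, h2]

lemma eg_pm (i : ℤ) : eg i = 1 ∨ eg i = -1 := by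
  unfold eg
  by_cases h : i % 4 = 0 ∨ i % 4 = 3
  · left; rw [if_pos h]
  · right; rw [if_neg h]

/-- chain lifts give honest chain maps -/
lemma honest {R : Type u} [CommRing R] {N P : Type u} [AddCommGroup N] [Module R N]
    [AddCommGroup P] [Module R P] {s : ℕ} {FN : FRes R N s} {FP : FRes R P s} {φ : P →ₗ[R] N}
    {û : FN.ν.ι → FP.ν.ι → R} (h : ChainLift FN FP φ û) (hσ : StdSign FN.ν) :
    ∃ u : FN.ν.ι → FP.ν.ι → R, (∀ n x, u n x ≠ 0 → FN.ν.g n = FP.ν.g x) ∧
      (∀ n x, ∑ n', FN.ν.m n n' * u n' x = ∑ y, u n y * FP.ν.m y x) ∧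
      (∀ x, ∑ n, u n x • FN.ε n = φ (FP.ε x)) ∧
      ∀ (K : Ideal R) n x, û n x ∈ K → u n x ∈ K := by
  refine ⟨fun n x => (eg (FN.ν.g n) : R) * û n x, ?_, ?_, ?_, ?_⟩
  · intro n x hn
    exact h.deg n x (right_ne_zero_of_mul hn)
  · intro n x
    have e1 : ∑ n', FN.ν.m n n' * ((eg (FN.ν.g n') : R) * û n' x) =
        (eg (FN.ν.g n + 1) : R) * ∑ n', FN.ν.m n n' * û n' x := by
      rw [mul_sum]
      refine sum_congr rfl fun n' _ => ?_
      by_cases hm : FN.ν.m n n' = 0
      · rw [hm]; ring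
      · rw [FN.ν.deg n n' hm]; ring
    rw [e1, h.comm, eg_succ]
    have e2 : ∑ y, (eg (FN.ν.g n) : R) * û n y * FP.ν.m y x =
        (eg (FN.ν.g n) : R) * ∑ y, û n y * FP.ν.m y x := by
      rw [mul_sum]
      exact sum_congr rfl fun y _ => by ring
    rw [e2, hσ n]
    by_cases he : Even (FN.ν.g n)
    · simp only [if_pos he]
      push_cast
      simp
    · simp only [if_neg he]
      push_cast
      simp
  · intro x
    rw [← h.lift x]
    refine sum_congr rfl fun n _ => ?_
    beta_reduce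
    by_cases hn : FN.ν.g n = 0
    · rw [hn]
      simp [eg]
    · rw [FN.ε0 n hn, smul_zero, smul_zero]
  · intro K n x hK
    exact K.mul_mem_left _ hK

lemma deriv_sum_apply {S : Type u} [CommRing S] {k : ℕ} (e : Fin k → S)
    (D : Fin k → Derivation ℤ S S) (x : S) : (∑ i, e i • D i) x = ∑ i, e i * D i x := by
  have h := congrFun (map_sum (Derivation.coeFnAddMonoidHom : Derivation ℤ S S →+ S → S)
    (fun i => e i • D i) univ) x
  rw [Finset.sum_apply] at h
  exact h

section

variable {S : Type u} [CommRing S] [IsLocalRing S] {I : Ideal S} [IsLocalRing (S ⧸ I)]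
  {N : Type u} [AddCommGroup N] [Module S N] [Module (S ⧸ I) N] [IsScalarTower S (S ⧸ I) N]

theorem lemmaD {s : ℕ} (FN : FRes (S ⧸ I) N s) (FP : FRes (S ⧸ I) (I →ₗ[S] N) s)
    (hσ : StdSign FN.ν) (mt : FN.ν.ι → FN.ν.ι → S)
    (hm1 : ∀ a b, Ideal.Quotient.mk I (mt a b) = FN.ν.m a b)
    (hm2 : ∀ a b, mt a b ∈ maximalIdeal S)
    (hm3 : ∀ a c, ∑ b, mt a b * mt b c ∈ maximalIdeal S * I)
    (n₀ : FN.ν.ι) (hn₀ : FN.ν.g n₀ = s) (f : I) (û : FN.ν.ι → FP.ν.ι → S ⧸ I)
    (hû : ChainLift FN FP (evP I N f) û)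
    (htop : ∀ n x, FN.ν.g n = s → û n x ∈ maximalIdeal (S ⧸ I))
    (E : Derivation ℤ S S) (hE : E ∈ maximalIdeal S • (⊤ : Submodule S (Derivation ℤ S S)))
    (hEI : ∀ y ∈ I, E y ∈ I) : E f.1 ∈ maximalIdeal S * I := by
  classical
  obtain ⟨k, e, D, he, hED⟩ := exists_sum_of_mem_smul_top _ hE
  obtain ⟨l, hl0, hl⟩ := exists_section I
  obtain ⟨φ, hφ1, hφ2, hφ3, hφ4⟩ := honest hû hσ
  -- lifts of `J`
  choose J hJ1 hJ2 hJ3 using fun i => exists_chain FP FN (Jd I N (D i))
  -- homotopies `s`
  have hs : ∀ i, ∃ w : FN.ν.ι → FN.ν.ι → S ⧸ I, (∀ n a, w n a ≠ 0 → FN.ν.g n = FN.ν.g a + 0 + 1) ∧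
      ∀ n a, ∑ x, φ n x * J i x a - (if n = a then Ideal.Quotient.mk I (D i f.1) else 0) =
        ∑ n', FN.ν.m n n' * w n' a + 1 * ∑ b, w n b * FN.ν.m b a := by
    intro i
    refine htpy FN FN.ν FN.g0 0 (le_refl _) 1 _ ?_ ?_ ?_
    · intro n a h
      rw [add_zero]
      by_contra hna
      apply h
      rw [if_neg (fun h' => hna (by rw [h'])), sub_zero]
      refine sum_eq_zero fun x _ => ?_
      by_cases h1 : φ n x = 0
      · rw [h1, zero_mul]
      · by_cases h2 : J i x a = 0
        · rw [h2, mul_zero]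
        · exact absurd ((hφ1 n x h1).trans (hJ1 i x a h2)) hna
    · intro n a
      simp only [mul_sub, sub_mul, sum_sub_distrib, one_mul, mul_ite, ite_mul, mul_zero, zero_mul,
        sum_ite_eq', sum_ite_eq, mem_univ, if_true]
      have e1 : ∑ n', FN.ν.m n n' * ∑ x, φ n' x * J i x a =
          ∑ b, (∑ x, φ n x * J i x b) * FN.ν.m b a := by
        have e2 : ∑ n', FN.ν.m n n' * ∑ x, φ n' x * J i x a =
            ∑ x, (∑ n', FN.ν.m n n' * φ n' x) * J i x a := by
          simp only [mul_sum, sum_mul]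
          rw [sum_comm]
          exact sum_congr rfl fun _ _ => sum_congr rfl fun _ _ => by ring
        have e3 : ∑ x, (∑ y, φ n y * FP.ν.m y x) * J i x a =
            ∑ y, φ n y * ∑ x, FP.ν.m y x * J i x a := by
          simp only [mul_sum, sum_mul]
          rw [sum_comm]
          exact sum_congr rfl fun _ _ => sum_congr rfl fun _ _ => by ring
        have e4 : ∑ b, (∑ x, φ n x * J i x b) * FN.ν.m b a =
            ∑ y, φ n y * ∑ b, J i y b * FN.ν.m b a := by
          simp only [mul_sum, sum_mul]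
          rw [sum_comm]
          exact sum_congr rfl fun _ _ => sum_congr rfl fun _ _ => by ring
        rw [e2]
        simp only [hφ2]
        rw [e3, e4]
        simp only [hJ2]
      rw [e1]
      congr 1
      ring
    · intro _ a ha
      have e1 : ∀ n, (∑ x, φ n x * J i x a - (if n = a then Ideal.Quotient.mk I (D i f.1) else 0)) •
          FN.ε n = ∑ x, J i x a • φ n x • FN.ε n -
            (if n = a then Ideal.Quotient.mk I (D i f.1) • FN.ε a else 0) := by
        intro n
        rw [sub_smul, sum_smul]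
        congr 1
        · exact sum_congr rfl fun x _ => by rw [mul_comm, mul_smul]
        · by_cases h : n = a
          · subst h; simp
          · simp [h]
      simp only [e1, sum_sub_distrib, sum_ite_eq', mem_univ, if_true]
      rw [sum_comm]
      have e2 : ∀ x, ∑ n, J i x a • φ n x • FN.ε n = J i x a • FP.ε x f := by
        intro x
        rw [← smul_sum, hφ3 x]
        rfl
      simp only [e2]
      have e3 := congrArg (evP I N f) (hJ3 i a)
      rw [map_sum] at e3
      have e4 : ∑ x, J i x a • FP.ε x f = D i f.1 • FN.ε a := by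
        refine Eq.trans ?_ e3
        exact sum_congr rfl fun x _ => ((evP I N f).map_smul _ _).symm
      rw [e4, ← algebraMap_smul (S ⧸ I) (D i f.1) (FN.ε a)]
      exact sub_self _
  choose w hw1 hw2 using hs
  -- homotopy `τ`
  obtain ⟨τ, hτ1, hτ2⟩ := htpy FP FN.ν FN.g0 0 (le_refl _) 1
    (fun x a => ∑ i, Ideal.Quotient.mk I (e i) * J i x a) (by
      intro x a h
      obtain ⟨i, -, hi⟩ := exists_ne_zero_of_sum_ne_zero h
      rw [add_zero]
      exact hJ1 i x a (right_ne_zero_of_mul hi)) (by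
      intro x a
      rw [one_mul]
      have e1 : ∑ n', FP.ν.m x n' * ∑ i, Ideal.Quotient.mk I (e i) * J i n' a =
          ∑ i, Ideal.Quotient.mk I (e i) * ∑ n', FP.ν.m x n' * J i n' a := by
        simp only [mul_sum]
        rw [sum_comm]
        exact sum_congr rfl fun _ _ => sum_congr rfl fun _ _ => by ring
      have e2 : ∑ b, (∑ i, Ideal.Quotient.mk I (e i) * J i x b) * FN.ν.m b a =
          ∑ i, Ideal.Quotient.mk I (e i) * ∑ b, J i x b * FN.ν.m b a := by
        simp only [mul_sum, sum_mul]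
        rw [sum_comm]
        exact sum_congr rfl fun _ _ => sum_congr rfl fun _ _ => by ring
      rw [e1, e2]
      simp only [hJ2]) (by
      intro _ a _
      have e1 : ∀ x, (∑ i, Ideal.Quotient.mk I (e i) * J i x a) • FP.ε x =
          ∑ i, Ideal.Quotient.mk I (e i) • J i x a • FP.ε x := by
        intro x
        rw [sum_smul]
        exact sum_congr rfl fun i _ => by rw [mul_smul]
      simp only [e1]
      rw [sum_comm]
      simp only [← smul_sum, hJ3]
      ext g
      rw [LinearMap.sum_apply]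
      have e2 : ∀ i, (Ideal.Quotient.mk I (e i) • (Jd I N (D i)) (FN.ε a)) g =
          (e i • D i g.1) • FN.ε a := by
        intro i
        rw [LinearMap.smul_apply, Jd_apply]
        have : Ideal.Quotient.mk I (e i) = algebraMap S (S ⧸ I) (e i) := rfl
        rw [this, algebraMap_smul, smul_smul]
        rfl
      simp only [e2]
      rw [← sum_smul]
      have e3 : ∑ i, e i • D i g.1 = E g.1 := by
        rw [hED, deriv_sum_apply]
        simp only [smul_eq_mul]
      rw [e3, ← algebraMap_smul (S ⧸ I) (E g.1) (FN.ε a)]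
      have : algebraMap S (S ⧸ I) (E g.1) = 0 :=
        Ideal.Quotient.eq_zero_iff_mem.mpr (hEI _ g.2)
      rw [this, zero_smul, LinearMap.zero_apply])
  -- homotopy `w`
  obtain ⟨v, hv1, hv2⟩ := htpy FN FN.ν FN.g0 1 (by norm_num) (-1)
    (fun n a => ∑ x, φ n x * τ x a - ∑ i, Ideal.Quotient.mk I (e i) * w i n a) (by
      intro n a h
      by_contra hna
      apply h
      have e1 : ∑ x, φ n x * τ x a = 0 := by
        refine sum_eq_zero fun x _ => ?_
        by_cases h1 : φ n x = 0
        · rw [h1, zero_mul]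
        · by_cases h2 : τ x a = 0
          · rw [h2, mul_zero]
          · have := hτ1 x a h2
            exact absurd (by rw [hφ1 n x h1, this, add_zero]) hna
      have e2 : ∑ i, Ideal.Quotient.mk I (e i) * w i n a = 0 := by
        refine sum_eq_zero fun i _ => ?_
        by_cases h1 : w i n a = 0
        · rw [h1, mul_zero]
        · have := hw1 i n a h1
          exact absurd (by rw [this, add_zero]) hna
      beta_reduce
      rw [e1, e2, sub_zero]) (by
      intro n a
      -- `m φ τ = φ m τ`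
      have e1 : ∑ n', FN.ν.m n n' * ∑ x, φ n' x * τ x a =
          ∑ y, φ n y * ∑ x, FP.ν.m y x * τ x a := by
        have e2 : ∑ n', FN.ν.m n n' * ∑ x, φ n' x * τ x a =
            ∑ x, (∑ n', FN.ν.m n n' * φ n' x) * τ x a := by
          simp only [mul_sum, sum_mul]
          rw [sum_comm]
          exact sum_congr rfl fun _ _ => sum_congr rfl fun _ _ => by ring
        rw [e2]
        simp only [hφ2]
        simp only [mul_sum, sum_mul]
        rw [sum_comm]
        exact sum_congr rfl fun _ _ => sum_congr rfl fun _ _ => by ring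
      have e1' : ∑ b, (∑ x, φ n x * τ x b) * FN.ν.m b a =
          ∑ y, φ n y * ∑ b, τ y b * FN.ν.m b a := by
        simp only [mul_sum, sum_mul]
        rw [sum_comm]
        exact sum_congr rfl fun _ _ => sum_congr rfl fun _ _ => by ring
      have e3 : ∑ n', FN.ν.m n n' * ∑ i, Ideal.Quotient.mk I (e i) * w i n' a =
          ∑ i, Ideal.Quotient.mk I (e i) * ∑ n', FN.ν.m n n' * w i n' a := by
        simp only [mul_sum]
        rw [sum_comm]
        exact sum_congr rfl fun _ _ => sum_congr rfl fun _ _ => by ring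
      have e4 : ∑ b, (∑ i, Ideal.Quotient.mk I (e i) * w i n b) * FN.ν.m b a =
          ∑ i, Ideal.Quotient.mk I (e i) * ∑ b, w i n b * FN.ν.m b a := by
        simp only [mul_sum, sum_mul]
        rw [sum_comm]
        exact sum_congr rfl fun _ _ => sum_congr rfl fun _ _ => by ring
      have e0 : ∑ n', FN.ν.m n n' * (∑ x, φ n' x * τ x a -
          ∑ i, Ideal.Quotient.mk I (e i) * w i n' a) =
          ∑ n', FN.ν.m n n' * ∑ x, φ n' x * τ x a -
          ∑ n', FN.ν.m n n' * ∑ i, Ideal.Quotient.mk I (e i) * w i n' a := by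
        simp only [mul_sub, sum_sub_distrib]
      have e0' : ∑ b, (∑ x, φ n x * τ x b - ∑ i, Ideal.Quotient.mk I (e i) * w i n b) *
          FN.ν.m b a = ∑ b, (∑ x, φ n x * τ x b) * FN.ν.m b a -
          ∑ b, (∑ i, Ideal.Quotient.mk I (e i) * w i n b) * FN.ν.m b a := by
        simp only [sub_mul, sum_sub_distrib]
      rw [e0, e0', e1, e1', e3, e4, neg_one_mul, eq_neg_iff_add_eq_zero]
      -- sum
      have e5 : ∀ y, ∑ x, FP.ν.m y x * τ x a + ∑ b, τ y b * FN.ν.m b a =
          ∑ i, Ideal.Quotient.mk I (e i) * J i y a := by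
        intro y
        rw [hτ2 y a, one_mul]
      have e6 : ∀ i, ∑ n', FN.ν.m n n' * w i n' a + ∑ b, w i n b * FN.ν.m b a =
          ∑ x, φ n x * J i x a - (if n = a then Ideal.Quotient.mk I (D i f.1) else 0) := by
        intro i
        rw [hw2 i n a, one_mul]
      have e7 : ∑ y, φ n y * ∑ x, FP.ν.m y x * τ x a -
          ∑ i, Ideal.Quotient.mk I (e i) * ∑ n', FN.ν.m n n' * w i n' a +
          (∑ y, φ n y * ∑ b, τ y b * FN.ν.m b a -
          ∑ i, Ideal.Quotient.mk I (e i) * ∑ b, w i n b * FN.ν.m b a) =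
          ∑ y, φ n y * (∑ x, FP.ν.m y x * τ x a + ∑ b, τ y b * FN.ν.m b a) -
          ∑ i, Ideal.Quotient.mk I (e i) * (∑ n', FN.ν.m n n' * w i n' a +
            ∑ b, w i n b * FN.ν.m b a) := by
        simp only [mul_add, sum_add_distrib]
        ring
      rw [e7]
      simp only [e5, e6, mul_sub, sum_sub_distrib]
      have e8 : ∑ y, φ n y * ∑ i, Ideal.Quotient.mk I (e i) * J i y a =
          ∑ i, Ideal.Quotient.mk I (e i) * ∑ y, φ n y * J i y a := by
        simp only [mul_sum]
        rw [sum_comm]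
        exact sum_congr rfl fun _ _ => sum_congr rfl fun _ _ => by ring
      have e9 : ∑ i, Ideal.Quotient.mk I (e i) *
          (if n = a then Ideal.Quotient.mk I (D i f.1) else 0) = 0 := by
        by_cases h : n = a
        · simp only [if_pos h, ← map_mul, ← map_sum]
          have e3 : ∑ i, e i * D i f.1 = E f.1 := by
            rw [hED, deriv_sum_apply]
          rw [e3]
          exact Ideal.Quotient.eq_zero_iff_mem.mpr (hEI _ f.2)
        · simp [h]
      rw [e8, e9]
      ring) (fun h => absurd h (by norm_num))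
  -- lifting to `S`
  have hmk : ∀ {r : S}, Ideal.Quotient.mk I r = 0 → r ∈ I :=
    fun h => Ideal.Quotient.eq_zero_iff_mem.mp h
  let mF : Matrix FN.ν.ι FN.ν.ι S := mt
  let mG : Matrix FP.ν.ι FP.ν.ι S := fun x y => l (FP.ν.m x y)
  let φ' : Matrix FN.ν.ι FP.ν.ι S := fun n x => l (φ n x)
  let J' : Fin k → Matrix FP.ν.ι FN.ν.ι S := fun i x a => l (J i x a)
  let s' : Fin k → Matrix FN.ν.ι FN.ν.ι S := fun i n a => l (w i n a)
  let τ' : Matrix FP.ν.ι FN.ν.ι S := fun x a => l (τ x a)
  let v' : Matrix FN.ν.ι FN.ν.ι S := fun n a => l (v n a)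
  let A : Fin k → Matrix FN.ν.ι FN.ν.ι S := fun i =>
    φ' * J' i - D i f.1 • 1 - mF * s' i - s' i * mF
  let JE : Matrix FP.ν.ι FN.ν.ι S := ∑ i, e i • J' i
  let sE : Matrix FN.ν.ι FN.ν.ι S := ∑ i, e i • s' i
  let AE : Matrix FN.ν.ι FN.ν.ι S := ∑ i, e i • A i
  have hAI : ∀ i n a, A i n a ∈ I := by
    intro i n a
    apply hmk
    have e1 := hw2 i n a
    change Ideal.Quotient.mk I ((φ' * J' i - D i f.1 • (1 : Matrix FN.ν.ι FN.ν.ι S) -
      mF * s' i - s' i * mF : Matrix FN.ν.ι FN.ν.ι S) n a) = 0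
    rw [Matrix.sub_apply, Matrix.sub_apply, Matrix.sub_apply, Matrix.mul_apply, Matrix.mul_apply,
      Matrix.mul_apply, Matrix.smul_apply, Matrix.one_apply]
    simp only [map_sub, map_sum, map_mul, smul_eq_mul, mul_ite, mul_one, mul_zero]
    simp only [φ', J', s', mF, hl, hm1]
    rw [one_mul] at e1
    rw [apply_ite (Ideal.Quotient.mk I), map_zero, e1]
    ring
  have hAE : φ' * JE = (∑ i, e i * D i f.1) • 1 + mF * sE + sE * mF + AE := by
    simp only [JE, sE, AE, A, Matrix.mul_sum, Matrix.sum_mul, Matrix.mul_smul, Matrix.smul_mul,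
      smul_sub, sum_sub_distrib, sum_smul, mul_smul]
    abel
  refine (congrArg (· ∈ maximalIdeal S * I) (?_ : E f.1 = ∑ i, e i * D i f.1)).mpr
    (core_mem mF sE v' (φ' * τ' - sE - mF * v' + v' * mF) AE mG φ' (mF * φ' - φ' * mG) JE τ'
      (JE - mG * τ' - τ' * mF) _ hAE (by abel) (by abel) (by abel) n₀ ?_ ?_ ?_ hm2 ?_ ?_ ?_)
  · rw [hED, deriv_sum_apply]
  · intro y
    exact mem_max_of_mk (I := I) (by
      rw [hl]
      exact hφ4 _ _ _ (htop n₀ y hn₀))
  · intro y
    apply hmk
    have e1 := hτ2 y n₀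
    rw [Matrix.sub_apply, Matrix.sub_apply, Matrix.mul_apply, Matrix.mul_apply]
    change Ideal.Quotient.mk I ((∑ i, e i • J' i) y n₀ - _ - _) = 0
    rw [Matrix.sum_apply]
    simp only [Matrix.smul_apply, map_sub, map_sum, map_mul, smul_eq_mul]
    simp only [J', mG, τ', mF, hl, hm1]
    rw [one_mul] at e1
    rw [e1]
    ring
  · intro y
    have h1 : τ y n₀ = 0 := by
      by_contra h
      have h2 := hτ1 y n₀ h
      have h3 := FP.gs y
      omega
    change l (τ y n₀) = 0
    rw [h1, hl0]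
  · intro n a
    apply hmk
    have e1 := hv2 n a
    rw [Matrix.add_apply, Matrix.sub_apply, Matrix.sub_apply, Matrix.mul_apply, Matrix.mul_apply,
      Matrix.mul_apply]
    change Ideal.Quotient.mk I (_ - (∑ i, e i • s' i) n a - _ + _) = 0
    rw [Matrix.sum_apply]
    simp only [Matrix.smul_apply, map_sub, map_add, map_sum, map_mul, smul_eq_mul]
    simp only [s', φ', v', τ', mF, hl, hm1]
    have e2 : ∑ x, φ n x * τ x a - ∑ i, Ideal.Quotient.mk I (e i) * w i n a -
        ∑ x, FN.ν.m n x * v x a + ∑ x, v n x * FN.ν.m x a = 0 := by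
      rw [e1]
      ring
    exact e2
  · change (∑ i, e i • A i) n₀ n₀ ∈ _
    rw [Matrix.sum_apply]
    simp only [Matrix.smul_apply, smul_eq_mul]
    exact Ideal.sum_mem _ fun i _ => Ideal.mul_mem_mul (he i) (hAI i _ _)
  · intro a b
    rw [Matrix.mul_apply]
    exact hm3 a b

end

end Pool.Agent.Helper23.CD
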