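import Pool.Agent.Helper23.CD.Htpy
import Pool.Agent.CN.Cases

/-!
# The derivation identity for matrices
-/

universe u

namespace Pool.Agent.Helper23.CD

open Finset IsLocalRing Pool.Agent.CN Pool.Agent.Helper19

section Core

variable {S : Type u} [CommRing S] {n x : Type} [Fintype n] [Fintype x] [DecidableEq n]

theorem core_identity (mF sE w G AE : Matrix n n S) (mG : Matrix x x S) (φ C : Matrix n x S)
    (JE τ B : Matrix x n S) (a : S)
    (hA : φ * JE = a • 1 + mF * sE + sE * mF + AE)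
    (hB : JE = mG * τ + τ * mF + B)
    (hC : mF * φ = φ * mG + C)
    (hG : φ * τ = sE + mF * w - w * mF + G) :
    a • (1 : Matrix n n S) = φ * B - C * τ + mF * G + G * mF - AE + mF * mF * w - w * (mF * mF) := by
  have h1 : a • (1 : Matrix n n S) = φ * JE - mF * sE - sE * mF - AE := by rw [hA]; abel
  have h2 : φ * JE = (φ * mG) * τ + (φ * τ) * mF + φ * B := by
    rw [hB, Matrix.mul_add, Matrix.mul_add, Matrix.mul_assoc, Matrix.mul_assoc]
  have h3 : φ * mG = mF * φ - C := by rw [hC]; abel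
  have h4 : (φ * mG) * τ = mF * (φ * τ) - C * τ := by
    rw [h3, Matrix.sub_mul, Matrix.mul_assoc]
  rw [h1, h2, h4, hG]
  simp only [Matrix.mul_add, Matrix.mul_sub, Matrix.add_mul, Matrix.sub_mul, Matrix.mul_assoc]
  abel

theorem core_mem {m I : Ideal S} (mF sE w G AE : Matrix n n S) (mG : Matrix x x S)
    (φ C : Matrix n x S) (JE τ B : Matrix x n S) (a : S)
    (hA : φ * JE = a • 1 + mF * sE + sE * mF + AE)
    (hB : JE = mG * τ + τ * mF + B)
    (hC : mF * φ = φ * mG + C)
    (hG : φ * τ = sE + mF * w - w * mF + G) (n₀ : n)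
    (hφ : ∀ y, φ n₀ y ∈ m) (hBI : ∀ y, B y n₀ ∈ I) (hτ : ∀ y, τ y n₀ = 0)
    (hm : ∀ a b, mF a b ∈ m) (hGI : ∀ a b, G a b ∈ I) (hAE : AE n₀ n₀ ∈ m * I)
    (hmm : ∀ a b, (mF * mF) a b ∈ m * I) : a ∈ m * I := by
  have h := congrFun (congrFun (core_identity mF sE w G AE mG φ C JE τ B a hA hB hC hG) n₀) n₀
  have h1 : (a • (1 : Matrix n n S)) n₀ n₀ = a := by simp
  rw [h1] at h
  rw [h]
  simp only [Matrix.sub_apply, Matrix.add_apply]
  refine Ideal.sub_mem _ (Ideal.add_mem _ (Ideal.sub_mem _ (Ideal.add_mem _ (Ideal.add_mem _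
    (Ideal.sub_mem _ ?_ ?_) ?_) ?_) hAE) ?_) ?_
  · rw [Matrix.mul_apply]
    exact Ideal.sum_mem _ fun y _ => Ideal.mul_mem_mul (hφ y) (hBI y)
  · rw [Matrix.mul_apply]
    exact Ideal.sum_mem _ fun y _ => by rw [hτ, mul_zero]; exact Ideal.zero_mem _
  · rw [Matrix.mul_apply]
    exact Ideal.sum_mem _ fun y _ => Ideal.mul_mem_mul (hm _ y) (hGI y _)
  · rw [Matrix.mul_apply]
    exact Ideal.sum_mem _ fun y _ => by
      rw [mul_comm (G _ _)]; exact Ideal.mul_mem_mul (hm _ _) (hGI _ _)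
  · rw [Matrix.mul_apply]
    exact Ideal.sum_mem _ fun y _ => Ideal.mul_mem_right _ _ (hmm _ _)
  · rw [Matrix.mul_apply]
    exact Ideal.sum_mem _ fun y _ => Ideal.mul_mem_left _ _ (hmm _ _)

end Core

/-- the map `N → Hom(I, N)` given by a derivation -/
def Jd {S : Type u} [CommRing S] (I : Ideal S) (N : Type u) [AddCommGroup N] [Module S N]
    [Module (S ⧸ I) N] [IsScalarTower S (S ⧸ I) N] (D : Derivation ℤ S S) :
    N →ₗ[S ⧸ I] (I →ₗ[S] N) where
  toFun v :=
    { toFun := fun g => D g.1 • v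
      map_add' := fun g g' => by
        rw [Submodule.coe_add, map_add, add_smul]
      map_smul' := fun a g => by
        have h1 : g.1 • v = 0 := by
          rw [← algebraMap_smul (S ⧸ I) g.1 v]
          have : algebraMap S (S ⧸ I) g.1 = 0 := Ideal.Quotient.eq_zero_iff_mem.mpr g.2
          rw [this, zero_smul]
        rw [SetLike.val_smul, smul_eq_mul, D.leibniz, add_smul, smul_eq_mul, smul_eq_mul,
          mul_smul, mul_comm g.1, mul_smul, h1, smul_zero, add_zero, RingHom.id_apply] }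
  map_add' v w := by
    ext g
    simp
  map_smul' r v := by
    ext g
    simp only [LinearMap.coe_mk, AddHom.coe_mk, RingHom.id_apply, LinearMap.smul_apply]
    rw [smul_comm]

lemma Jd_apply {S : Type u} [CommRing S] (I : Ideal S) (N : Type u) [AddCommGroup N] [Module S N]
    [Module (S ⧸ I) N] [IsScalarTower S (S ⧸ I) N] (D : Derivation ℤ S S) (v : N) (g : I) :
    Jd I N D v g = D g.1 • v := rfl

lemma exists_sum_of_mem_smul_top {S : Type u} [CommRing S] (m : Ideal S) {M : Type u}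
    [AddCommGroup M] [Module S M] {E : M} (hE : E ∈ m • (⊤ : Submodule S M)) :
    ∃ (k : ℕ) (e : Fin k → S) (D : Fin k → M), (∀ i, e i ∈ m) ∧ E = ∑ i, e i • D i := by
  refine Submodule.smul_induction_on hE ?_ ?_
  · intro r hr n _
    exact ⟨1, fun _ => r, fun _ => n, fun _ => hr, by simp⟩
  · rintro x y ⟨k, e, D, h1, h2⟩ ⟨k', e', D', h1', h2'⟩
    refine ⟨k + k', Fin.append e e', Fin.append D D', fun i => ?_, ?_⟩
    · refine Fin.addCases (fun i => ?_) (fun i => ?_) i
      · rw [Fin.append_left]; exact h1 i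
      · rw [Fin.append_right]; exact h1' i
    · rw [Fin.sum_univ_add, h2, h2']
      simp

end Pool.Agent.Helper23.CD
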