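import Pool.Agent.Helper19.ABound
import Pool.Agent.Helper19.NormalFree

/-!
# The projective dimension of `Hom(X, N)` in small depth
-/

universe u

open CategoryTheory IsLocalRing RingTheory.Sequence Pool.Agent.Helper19

namespace Pool.Agent.Helper23.CD

section

variable {A : Type u} [CommRing A]

lemma pd_prod {X Y : Type u} [AddCommGroup X] [Module A X] [AddCommGroup Y] [Module A Y] {n : ℕ}
    (hX : PD A X n) (hY : PD A Y n) : PD A (X × Y) n :=
  pd_middle (f := LinearMap.inl A X Y) (g := LinearMap.snd A X Y) LinearMap.inl_injective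
    LinearMap.snd_surjective (by
      rintro ⟨x, y⟩
      constructor
      · intro h
        exact ⟨x, Prod.ext rfl (Eq.symm h)⟩
      · rintro ⟨z, hz⟩
        exact (congrArg Prod.snd hz).symm) hX hY

lemma pd_pi {X : Type u} [AddCommGroup X] [Module A X] {n : ℕ} (hX : PD A X n) (t : ℕ) :
    PD A (Fin t → X) n := by
  induction t with
  | zero =>
    have h : PD A (Fin 0 → X) 0 :=
      (hasProjectiveDimensionLT_zero_iff_isZero (ModuleCat.of A (Fin 0 → X))).mpr
        (ModuleCat.isZero_iff_subsingleton.mpr inferInstance)
    exact PD.mono h (Nat.zero_le _)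
  | succ t ih => exact PD.congr (Fin.consLinearEquiv A (fun _ => X)) (pd_prod hX ih)

/-- `0 → X → Y → Z → 0` with `pd Y < n` and `pd Z < n + 1` gives `pd X < n`. -/
lemma pd_left {X Y Z : Type u} [AddCommGroup X] [Module A X] [AddCommGroup Y] [Module A Y]
    [AddCommGroup Z] [Module A Z] {f : X →ₗ[A] Y} {g : Y →ₗ[A] Z} (hf : Function.Injective f)
    (hg : Function.Surjective g) (hfg : Function.Exact f g) {n : ℕ}
    (hY : PD A Y n) (hZ : PD A Z (n + 1)) : PD A X n :=
  (shortExact_mk hf hg hfg).hasProjectiveDimensionLT_X₁ n hY hZ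

end

variable {R : Type u} [CommRing R] [IsLocalRing R] [IsNoetherianRing R]
variable {Q : Type u} [CommRing Q] [IsNoetherianRing Q] [Algebra Q R]

/-- If all `R`-regular sequences have length at most `s + 2` and `pd N ≤ s` then
`pd Hom(X, N) ≤ s` as soon as it is finite. -/
theorem pd_hom_le (s : ℕ) (hR : ∀ rs : List R, IsRegular R rs → rs.length ≤ s + 2)
    (N : Type u) [AddCommGroup N] [Module R N] [Module Q N] [IsScalarTower Q R N]
    [Module.Finite R N] (hN : PD R N (s + 1))
    {X : Type u} [AddCommGroup X] [Module Q X] [Module.Finite Q X] {n : ℕ}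
    (h : PD R (X →ₗ[Q] N) n) : PD R (X →ₗ[Q] N) (s + 1) := by
  obtain ⟨t, x, hx⟩ := Module.Finite.exists_fin (R := Q) (M := X)
  -- relations
  let π : (Fin t → Q) →ₗ[Q] X := Fintype.linearCombination Q x
  have hπ : Function.Surjective π := by
    rw [← LinearMap.range_eq_top, Fintype.range_linearCombination]; exact hx
  obtain ⟨b, y, hy⟩ := Module.Finite.exists_fin (R := Q) (M := LinearMap.ker π)
  let θ : (Fin t → N) →ₗ[R] (Fin b → N) :=
    LinearMap.pi fun j => ∑ i, (algebraMap Q R ((y j : Fin t → Q) i)) • LinearMap.proj i
  have hθ : ∀ v j, θ v j = ∑ i, (y j : Fin t → Q) i • v i := by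
    intro v j
    simp only [θ, LinearMap.pi_apply, LinearMap.sum_apply, LinearMap.smul_apply,
      LinearMap.proj_apply, algebraMap_smul]
  let ε : (X →ₗ[Q] N) →ₗ[R] (Fin t → N) := evalFam (Q := Q) (R := R) N x
  have hε : Function.Injective ε := evalFam_injective x hx
  have hex : Function.Exact ε θ := by
    intro v
    constructor
    · intro hv
      let g : (Fin t → Q) →ₗ[Q] N := Fintype.linearCombination Q v
      have hg : ∀ w, g w = ∑ i, w i • v i := by
        intro w
        simp [g, Fintype.linearCombination_apply]
      have hker : LinearMap.ker π ≤ LinearMap.ker g := by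
        intro w hw
        have h1 : (⟨w, hw⟩ : LinearMap.ker π) ∈ Submodule.span Q (Set.range y) := by
          rw [hy]; trivial
        have h2 : ∀ z : LinearMap.ker π, z ∈ Submodule.span Q (Set.range y) → g z = 0 := by
          intro z hz
          induction hz using Submodule.span_induction with
          | mem z hz =>
            obtain ⟨j, rfl⟩ := hz
            rw [hg, ← hθ, hv]; rfl
          | zero => simp
          | add a b _ _ ha hb => rw [Submodule.coe_add, map_add, ha, hb, add_zero]
          | smul r a _ ha => rw [Submodule.coe_smul, map_smul, ha, smul_zero]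
        exact h2 _ h1
      refine ⟨((LinearMap.ker π).liftQ g hker) ∘ₗ
        (π.quotKerEquivOfSurjective hπ).symm.toLinearMap, ?_⟩
      funext i
      rw [evalFam_apply]
      have h3 : (π.quotKerEquivOfSurjective hπ).symm (x i) =
          Submodule.Quotient.mk (Pi.single i 1) := by
        rw [LinearEquiv.symm_apply_eq]
        change x i = π (Pi.single i 1)
        simp [π]
      change ((LinearMap.ker π).liftQ g hker) ((π.quotKerEquivOfSurjective hπ).symm (x i)) = _
      rw [h3]
      change g (Pi.single i 1) = v i
      simp [g]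
    · rintro ⟨φ, rfl⟩
      funext j
      rw [hθ]
      have h1 : π (y j : Fin t → Q) = 0 := (y j).2
      have h2 := congrArg φ h1
      rw [Fintype.linearCombination_apply, map_sum, map_zero] at h2
      rw [Pi.zero_apply, ← h2]
      refine Finset.sum_congr rfl fun i _ => ?_
      rw [map_smul]
      rfl
  -- the cokernel
  let D := (Fin b → N) ⧸ LinearMap.range θ
  have hinjB : Function.Injective (LinearMap.range θ).subtype := Subtype.val_injective
  have hexB : Function.Exact (LinearMap.range θ).subtype (LinearMap.range θ).mkQ := by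
    intro v
    rw [Submodule.mkQ_apply, Submodule.Quotient.mk_eq_zero]
    constructor
    · intro hv; exact ⟨⟨v, hv⟩, rfl⟩
    · rintro ⟨w, rfl⟩; exact w.2
  have hexA : Function.Exact ε θ.rangeRestrict := by
    intro v
    rw [← hex v]
    constructor
    · intro hv
      have := congrArg Subtype.val hv
      exact this
    · intro hv; exact Subtype.ext hv
  have hB : PD R (LinearMap.range θ) (n + s + 2) :=
    pd_coker hε (LinearMap.surjective_rangeRestrict θ) hexA (n := n + s + 1)
      (PD.mono h (by omega)) (PD.mono (pd_pi hN t) (by omega))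
  have hD : PD R D (n + s + 3) :=
    pd_coker hinjB (Submodule.mkQ_surjective _) hexB hB (PD.mono (pd_pi hN b) (by omega))
  have hD3 : PD R D (s + 2 + 1) := pd_of_depth_le (s + 2) R hR _ D hD
  have hB2 : PD R (LinearMap.range θ) (s + 2) :=
    pd_left hinjB (Submodule.mkQ_surjective _) hexB (PD.mono (pd_pi hN b) (by omega)) hD3
  exact pd_left hε (LinearMap.surjective_rangeRestrict θ) hexA (pd_pi hN t) hB2

end Pool.Agent.Helper23.CD
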