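import Pool.Agent.Helper23.CD.LemD
import Pool.Agent.Helper23.CD.PdHom
import Pool.Agent.CN.Main

/-!
# The derivation criterion for liftable modules of depth at most two
-/

universe u

open CategoryTheory IsLocalRing RingTheory.Sequence Pool.Agent.Helper19 Pool.Agent.CN

namespace Pool.Agent.Helper23.CD

theorem theoremD (S : Type u) [CommRing S] [IsLocalRing S] [IsNoetherianRing S]
    (I : Ideal S) (hI : I ≠ ⊤) (hpd : projectiveDimension (ModuleCat.of S (S ⧸ I)) < ⊤)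
    (N₀ : Type u) [AddCommGroup N₀] [Module (S ⧸ I) N₀] [Module.Finite (S ⧸ I) N₀]
    (hN₀ : projectiveDimension (ModuleCat.of (S ⧸ I) N₀) ≤ 1)
    (xs : List (S ⧸ I)) (hxs : IsRegular N₀ xs)
    (N : Type u) [AddCommGroup N] [Module (S ⧸ I) N] [Module.Finite (S ⧸ I) N]
    (eN : (N₀ ⧸ (Ideal.ofList xs • ⊤ : Submodule (S ⧸ I) N₀)) ≃ₗ[S ⧸ I] N)
    (hdepth : ∀ rs : List (S ⧸ I), IsRegular (S ⧸ I) rs →
      (rs.length : WithBot ℕ∞) ≤ projectiveDimension (ModuleCat.of (S ⧸ I) N) + 2)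
    (hHom : projectiveDimension (ModuleCat.of (S ⧸ I) (I.Cotangent →ₗ[S ⧸ I] N)) < ⊤)
    (hD : ∀ x ∈ I, (∀ E ∈ maximalIdeal S • (⊤ : Submodule S (Derivation ℤ S S)),
        (∀ y ∈ I, E y ∈ I) → E x ∈ maximalIdeal S * I) → x ∈ maximalIdeal S * I) :
    ∃ rs : List S, IsRegular S rs ∧ Ideal.ofList rs = I := by
  have : Nontrivial (S ⧸ I) := Ideal.Quotient.nontrivial_iff.mpr hI
  have : IsLocalRing (S ⧸ I) :=
    IsLocalRing.of_surjective' (Ideal.Quotient.mk I) Ideal.Quotient.mk_surjective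
  let _ : Module S N := Module.compHom N (algebraMap S (S ⧸ I))
  have : IsScalarTower S (S ⧸ I) N := IsScalarTower.of_algebraMap_smul fun r x => rfl
  obtain ⟨n, hn⟩ := (projectiveDimension_ne_top_iff _).mp hpd.ne
  obtain ⟨k, hk⟩ := (projectiveDimension_ne_top_iff _).mp hHom.ne
  have hP : PD (S ⧸ I) (I →ₗ[S] N) (k + 1) := PD.congr (cotHomEquiv I N) hk
  have h0 : FPD ⊥ I := fpd_bot (n := n) hn
  -- `N₀`
  have hxm : ∀ x ∈ xs, x ∈ maximalIdeal (S ⧸ I) := by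
    intro x hx
    rw [mem_maximalIdeal, mem_nonunits_iff]
    intro hu
    have h2 : Ideal.ofList xs = ⊤ :=
      Ideal.eq_top_of_isUnit_mem _ (Ideal.subset_span hx) hu
    have := hxs.top_ne_smul
    rw [h2] at this
    simp at this
  have hnt : Nontrivial N₀ := by
    by_contra h
    rw [not_nontrivial_iff_subsingleton] at h
    exact hxs.top_ne_smul (Subsingleton.elim _ _)
  have hN₀' : PD (S ⧸ I) N₀ 2 := (projectiveDimension_le_iff _ 1).mp hN₀
  obtain ⟨s₀, hs₀⟩ := lres_of_pd (I := I) hN₀'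
  obtain ⟨s, hs⟩ := lres_of_list xs N₀ s₀ hs₀ hxs hxm
  obtain ⟨hNs, FN, hσ, ⟨n₀, hn₀⟩, mt, hm1, hm2, hm3⟩ := LRes.congr eN hs
  -- the projective dimension of `Hom(I, N)`
  have hle : projectiveDimension (ModuleCat.of (S ⧸ I) N) ≤ (s : ℕ) :=
    (projectiveDimension_le_iff _ s).mpr hNs
  have hR : ∀ rs : List (S ⧸ I), IsRegular (S ⧸ I) rs → rs.length ≤ s + 2 := by
    intro rs hrs
    have h1 : (rs.length : WithBot ℕ∞) ≤ ((s + 2 : ℕ) : WithBot ℕ∞) := by
      refine (hdepth rs hrs).trans ?_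
      push_cast
      exact add_le_add_left hle 2
    exact_mod_cast h1
  have hPs : PD (S ⧸ I) (I →ₗ[S] N) (s + 1) := pd_hom_le s hR N hNs hP
  have hfin : Module.Finite (S ⧸ I) (I →ₗ[S] N) := finite_hom
  obtain ⟨FP, hmin⟩ := exists_minRes s (I →ₗ[S] N) hPs
  refine gen_of_detect hI h0 FN FP hmin fun K hKI hK hdet => ?_
  have key : I ≤ K ⊔ maximalIdeal S • I := by
    intro x hx
    obtain ⟨f', hf', û, hû, htop⟩ := hdet ⟨x, hx⟩
    have h1 : (⟨x, hx⟩ - f' : I).1 ∈ maximalIdeal S * I := by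
      refine hD _ (⟨x, hx⟩ - f' : I).2 fun E hE hEI => ?_
      exact lemmaD FN FP hσ mt hm1 hm2 hm3 n₀ hn₀ (⟨x, hx⟩ - f') û hû htop E hE hEI
    have h2 : x = f'.1 + (⟨x, hx⟩ - f' : I).1 := by
      rw [Submodule.coe_sub]
      ring
    rw [h2]
    exact Submodule.add_mem_sup hf' h1
  exact Submodule.le_of_le_smul_of_le_jacobson_bot (IsNoetherian.noetherian I)
    (IsLocalRing.maximalIdeal_le_jacobson _) key

end Pool.Agent.Helper23.CD
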